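import Pool.Agent.K.MP_3d25f3_gt.C1

set_option autoImplicit false

open Pool.Agent.P.MP_3d25f3_gt

theorem Pool.Agent.Results.MP_3d25f3_gt.GenusBound.result (g : ℕ) (S : List (ℕ × ℤ)) (hS : Data S)
    (h : EmbedsFlat (Seifert g S)) (k : ℕ) : |∑ j ∈ Finset.range (k + 1), jmp S j| ≤ g :=
  genus_bound hS h k
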