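import Pool.Agent.K.MP_3d25f3_gt.C1

set_option autoImplicit false

open Pool.Agent.P.MP_3d25f3_gt

theorem Pool.Agent.Results.MP_3d25f3_gt.GenusZero.result (S : List (ℕ × ℤ)) (hS : Data S)
    (h : EmbedsFlat (Seifert 0 S)) : Skew S :=
  genus_zero hS h
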