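import Pool.Agent.K.MP_3d25f3_gt.C1

set_option autoImplicit false

open Pool.Agent.P.MP_3d25f3_gt

theorem Pool.Agent.Results.MP_3d25f3_gt.PPowBound.result (g : ℕ) (S : List (ℕ × ℤ)) (hS : Data S)
    (h : EmbedsFlat (Seifert g S)) (p a k : ℕ) (hp : p.Prime) (hk : ∀ q ∈ S, q.1 ∣ k * p ^ a)
    (hq : ∃ q ∈ S, ¬ q.1 ∣ k) :
    |2 * ∑ j ∈ Finset.range k, jmp S j + jmp S k| ≤ S.countP fun q => p ∣ q.1 ∧ q.1 ∣ k :=
  pp_bound hS h p a k hp hk hq
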