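import Pool.Agent.K.MP_3d25f3_gt.C6

set_option autoImplicit false

open Pool.Agent.P.MP_3d25f3_gt

theorem Pool.Agent.Results.MP_3d25f3_gt.PrimePowers.result (g : ℕ) (S : List (ℕ × ℤ)) (hS : Data S)
    (h1 : ∀ q ∈ S, q.1 = 1 ∨ IsPrimePow q.1) (h : EmbedsFlat (Seifert g S)) : Skew S :=
  G.prime_powers hS h1 h
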